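import Mathlib
import Pool.Agent.Helper42.Glide.Defs
import Pool.Agent.Helper42.Glide.Main

/-!
MP_9c346b_co: for every `n ≥ 5` there is an `n`-point planar set with distance multiplicities
`(n-1, n-2, …, 1)` that is of none of the types (A), (B), (C). All definitions (`Plane`, `mult`,
`dists`, `multList`, `descending`, `TypeA`, `TypeB`, `TypeC`) are in
`Pool.Agent.Helper42.Glide.Defs`.
-/

namespace Pool.Agent.Results.MP_9c346b_co.GlideOrbits

open Pool.Agent.Helper42.Glide

/-- For every `n ≥ 5` some `n`-point set `X` in the plane has `a(X) = (n-1, n-2, …, 1)` and is of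
none of the types (A), (B), (C). -/
theorem result : ∀ n : ℕ, 5 ≤ n → ∃ X : Finset Plane, X.card = n ∧ multList X = descending n ∧
    ¬ TypeA n X ∧ ¬ TypeB n X ∧ ¬ TypeC n X :=
  main

end Pool.Agent.Results.MP_9c346b_co.GlideOrbits
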